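import Mathlib
import Pool.Agent.Lib.MP_f88c17.Main

/-!
# No faithful smooth action of the free abelian group of rank two on the circle is stable

Everything is stated on the circle `S¹ = ℝ / ℤ` itself. Every faithful action of `ℤ²` by
orientation-preserving `C^∞` diffeomorphisms of `S¹` is the limit, in the `C^∞` topology, of
actions none of which is conjugate to it by a `C^∞` diffeomorphism of `S¹` of either orientation.
-/

set_option autoImplicit false

open Set Filter Topology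
open scoped ContDiff

namespace Pool.Agent.Results.MP_f88c17_an.NoStableAction

/-- the circle `ℝ / ℤ` -/
abbrev S1 : Type := AddCircle (1 : ℝ)

/-- `F` is a smooth lift of `f`, without critical points -/
structure IsLift (F : ℝ → ℝ) (f : Equiv.Perm S1) : Prop where
  smooth : ContDiff ℝ ∞ F
  deriv_ne : ∀ x, deriv F x ≠ 0
  lift : ∀ x : ℝ, f (x : S1) = (F x : S1)

/-- `f` is a `C^∞` diffeomorphism of the circle -/
def IsDiffeo (f : Equiv.Perm S1) : Prop := ∃ F : ℝ → ℝ, IsLift F f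

/-- `f` is an orientation-preserving `C^∞` diffeomorphism of the circle -/
def IsDiffeoPlus (f : Equiv.Perm S1) : Prop := ∃ F : ℝ → ℝ, IsLift F f ∧ ∀ x, 0 < deriv F x

/-- `f n` converges to `g` in the `C^∞` topology: for suitable lifts all derivatives converge
uniformly -/
def ConvergesTo (f : ℕ → Equiv.Perm S1) (g : Equiv.Perm S1) : Prop :=
  ∃ (F : ℕ → ℝ → ℝ) (G : ℝ → ℝ), (∀ n, IsLift (F n) (f n)) ∧ IsLift G g ∧
    ∀ k : ℕ, TendstoUniformly (fun n => iteratedDeriv k (F n)) (iteratedDeriv k G) atTop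

/-- an action of `ℤ²` by orientation-preserving `C^∞` diffeomorphisms of the circle -/
structure Action where
  hom : Multiplicative (ℤ × ℤ) →* Equiv.Perm S1
  diffeo : ∀ v, IsDiffeoPlus (hom v)

/-- the diffeomorphism by which `(a, b)` acts -/
def Action.act (φ : Action) (a b : ℤ) : Equiv.Perm S1 := φ.hom (Multiplicative.ofAdd (a, b))

/-- `φ` and `ψ` are conjugate by a `C^∞` diffeomorphism of the circle -/
def Action.Conjugate (φ ψ : Action) : Prop :=
  ∃ h : Equiv.Perm S1, IsDiffeo h ∧ ∀ a b : ℤ, h * ψ.act a b * h⁻¹ = φ.act a b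

private theorem coe_eq {a b : ℝ} : (a : S1) = (b : S1) ↔ ∃ n : ℤ, a = b + n := by
  rw [← sub_eq_zero, ← AddCircle.coe_sub, AddCircle.coe_eq_zero_iff]
  constructor
  · rintro ⟨n, hn⟩
    refine ⟨n, ?_⟩
    simp only [zsmul_eq_mul, mul_one] at hn
    linarith
  · rintro ⟨n, hn⟩
    refine ⟨n, ?_⟩
    simp only [zsmul_eq_mul, mul_one]
    linarith

private theorem int_const {A B : ℝ → ℝ} (hA : Continuous A) (hB : Continuous B)
    (h : ∀ x, (A x : S1) = (B x : S1)) : ∃ k : ℤ, ∀ x, A x = B x + k := by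
  choose n hn using fun x => coe_eq.1 (h x)
  have hc : Continuous n := by
    rw [Int.isClosedEmbedding_coe_real.isInducing.continuous_iff]
    have : ((fun z : ℤ => (z : ℝ)) ∘ n) = fun x => A x - B x := by
      funext x
      simp only [Function.comp]
      linarith [hn x]
    rw [this]
    exact hA.sub hB
  refine ⟨n 0, fun x => ?_⟩
  have : n x = n 0 := PreconnectedSpace.constant inferInstance hc
  rw [← this]
  exact hn x

private theorem degree {H : ℝ → ℝ} {h : Equiv.Perm S1} (hH : IsLift H h) :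
    (∀ x, H (x + 1) = H x + 1) ∨ (∀ x, H (x + 1) = H x - 1) := by
  have hc := hH.smooth.continuous
  obtain ⟨e, he⟩ := int_const (A := fun x => H (x + 1)) (B := H)
    (hc.comp (continuous_id.add continuous_const)) hc (fun x => by
      rw [← hH.lift, ← hH.lift]
      congr 1
      exact coe_eq.2 ⟨1, by push_cast; ring⟩)
  have hno : ∀ c ∈ Ioo (0 : ℝ) 1, ∀ k : ℤ, H c ≠ H 0 + k := by
    intro c hcm k hk
    have h1 : h (c : S1) = h ((0 : ℝ) : S1) := by
      rw [hH.lift, hH.lift]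
      exact coe_eq.2 ⟨k, hk⟩
    obtain ⟨m, hm⟩ := coe_eq.1 (h.injective h1)
    rw [zero_add] at hm
    have h2 : (0 : ℝ) < m := hm ▸ hcm.1
    have h3 : (m : ℝ) < 1 := hm ▸ hcm.2
    have h4 : (0 : ℤ) < m := by exact_mod_cast h2
    have h5 : m < (1 : ℤ) := by exact_mod_cast h3
    omega
  have h01 : H 1 = H 0 + e := by simpa using he 0
  rcases lt_trichotomy e 0 with h0 | h0 | h0
  · have : e = -1 := by
      by_contra hne
      have h2 : (e : ℝ) ≤ -2 := by
        have : e ≤ -2 := by omega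
        exact_mod_cast this
      have hm : H 0 + ((-1 : ℤ) : ℝ) ∈ Ioo (H 1) (H 0) := by
        rw [h01]
        push_cast
        constructor <;> linarith
      obtain ⟨c, hc1, hc2⟩ := intermediate_value_Ioo' (zero_le_one) hc.continuousOn hm
      exact hno c hc1 _ hc2
    right
    intro x
    rw [he x, this]
    push_cast
    ring
  · exfalso
    obtain ⟨c, -, hc2⟩ := exists_deriv_eq_zero (zero_lt_one) hc.continuousOn
      (show H 0 = H 1 by rw [h01, h0]; simp)
    exact hH.deriv_ne c hc2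
  · have : e = 1 := by
      by_contra hne
      have h2 : (2 : ℝ) ≤ e := by
        have : 2 ≤ e := by omega
        exact_mod_cast this
      have hm : H 0 + ((1 : ℤ) : ℝ) ∈ Ioo (H 0) (H 1) := by
        rw [h01]
        push_cast
        constructor <;> linarith
      obtain ⟨c, hc1, hc2⟩ := intermediate_value_Ioo (zero_le_one) hc.continuousOn hm
      exact hno c hc1 _ hc2
    left
    intro x
    rw [he x, this]
    push_cast
    ring

private theorem degree_pos {F : ℝ → ℝ} {f : Equiv.Perm S1} (hF : IsLift F f)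
    (hpos : ∀ x, 0 < deriv F x) : ∀ x, F (x + 1) = F x + 1 := by
  rcases degree hF with h | h
  · exact h
  · exfalso
    have h1 := strictMono_of_deriv_pos hpos (show (0 : ℝ) < 0 + 1 by norm_num)
    rw [h 0] at h1
    linarith

open Pool.Agent.F88

/-- `F` induces `f` on the circle -/
private def Ind (F : Dif) (f : Equiv.Perm S1) : Prop := ∀ x : ℝ, f (x : S1) = ((F x : ℝ) : S1)

private theorem Ind.isLift {F : Dif} {f : Equiv.Perm S1} (h : Ind F f) : IsLift (fun x => F x) f :=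
  ⟨F.contDiff, fun x => (F.deriv_pos x).ne', h⟩

private theorem Ind.mul {F G : Dif} {f g : Equiv.Perm S1} (hf : Ind F f) (hg : Ind G g) :
    Ind (F * G) (f * g) := fun x => by
  rw [Equiv.Perm.mul_apply, hg, hf]
  rfl

private theorem Ind.inv {F : Dif} {f : Equiv.Perm S1} (hf : Ind F f) : Ind F⁻¹ f⁻¹ := fun x => by
  rw [Equiv.Perm.inv_eq_iff_eq, hf, Dif.apply_inv_self]

private theorem Ind.one : Ind 1 1 := fun _ => rfl

private theorem Ind.pow {F : Dif} {f : Equiv.Perm S1} (hf : Ind F f) (n : ℕ) :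
    Ind (F ^ n) (f ^ n) := by
  induction n with
  | zero => simpa using Ind.one
  | succ n ih => rw [pow_succ, pow_succ]; exact ih.mul hf

private theorem Ind.zpow {F : Dif} {f : Equiv.Perm S1} (hf : Ind F f) (n : ℤ) :
    Ind (F ^ n) (f ^ n) := by
  cases n with
  | ofNat n => simpa using hf.pow n
  | negSucc n => rw [zpow_negSucc, zpow_negSucc]; exact (hf.pow (n + 1)).inv

private noncomputable def toCirc (F : Dif) (h : ∀ x, F (x + 1) = F x + 1) : S1 → S1 :=
  Function.Periodic.lift (f := fun x : ℝ => ((F x : ℝ) : S1)) (c := (1 : ℝ)) (fun x => by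
    show ((F (x + 1) : ℝ) : S1) = _
    rw [h]
    exact coe_eq.2 ⟨1, by push_cast; ring⟩)

private theorem toCirc_coe (F : Dif) (h : ∀ x, F (x + 1) = F x + 1) (x : ℝ) :
    toCirc F h (x : S1) = ((F x : ℝ) : S1) := rfl

private theorem exists_ind (F : Dif) (h : ∀ x, F (x + 1) = F x + 1) : ∃ f, Ind F f := by
  have hi : ∀ x, F⁻¹ (x + 1) = F⁻¹ x + 1 := fun x => by
    apply F.injective
    show F (F⁻¹ (x + 1)) = F (F⁻¹ x + 1)
    rw [h, Dif.apply_inv_self, Dif.apply_inv_self]
  refine ⟨⟨toCirc F h, toCirc F⁻¹ hi, fun z => ?_, fun z => ?_⟩, fun x => rfl⟩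
  · induction z using QuotientAddGroup.induction_on with
    | H x =>
      show toCirc F⁻¹ hi (toCirc F h (x : S1)) = (x : S1)
      rw [toCirc_coe, toCirc_coe, Dif.inv_apply_self]
  · induction z using QuotientAddGroup.induction_on with
    | H x =>
      show toCirc F h (toCirc F⁻¹ hi (x : S1)) = (x : S1)
      rw [toCirc_coe, toCirc_coe, Dif.apply_inv_self]

/-- the action given by a commuting pair -/
private def ofPair {f g : Equiv.Perm S1} {F G : Dif} (hf : Ind F f) (hg : Ind G g)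
    (hc : Commute f g) : Action where
  hom :=
    { toFun := fun v => f ^ (Multiplicative.toAdd v).1 * g ^ (Multiplicative.toAdd v).2
      map_one' := by simp
      map_mul' := fun v w => by
        rw [toAdd_mul, Prod.fst_add, Prod.snd_add, zpow_add, zpow_add]
        have := (hc.zpow_zpow (Multiplicative.toAdd w).1 (Multiplicative.toAdd v).2).eq
        rw [mul_assoc, mul_assoc, ← mul_assoc (f ^ (Multiplicative.toAdd w).1), this]
        simp only [mul_assoc] }
  diffeo := fun v => ⟨_, ((hf.zpow _).mul (hg.zpow _)).isLift, fun x => Dif.deriv_pos _ x⟩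

/-- **No faithful `C^∞` action of `ℤ²` on the circle is `C^∞` structurally stable.** -/
theorem result (φ : Action) (hφ : Function.Injective φ.hom) :
    ∃ ψ : ℕ → Action,
      ConvergesTo (fun n => (ψ n).act 1 0) (φ.act 1 0) ∧
      ConvergesTo (fun n => (ψ n).act 0 1) (φ.act 0 1) ∧
      ∀ n, ¬ φ.Conjugate (ψ n) := by
  obtain ⟨F, hF, hF'⟩ : ∃ F, IsLift F (φ.act 1 0) ∧ ∀ x, 0 < deriv F x := φ.diffeo _
  obtain ⟨G, hG, hG'⟩ : ∃ G, IsLift G (φ.act 0 1) ∧ ∀ x, 0 < deriv G x := φ.diffeo _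
  have hF1 := degree_pos hF hF'
  have hG1 := degree_pos hG hG'
  have hact : ∀ a b : ℕ, φ.act a b = φ.act 1 0 ^ a * φ.act 0 1 ^ b := fun a b => by
    show φ.hom _ = φ.hom _ ^ a * φ.hom _ ^ b
    rw [← φ.hom.map_pow, ← φ.hom.map_pow, ← φ.hom.map_mul]
    congr 1
    rw [← ofAdd_nsmul, ← ofAdd_nsmul, ← ofAdd_add]
    simp
  have hcomm : φ.act 1 0 * φ.act 0 1 = φ.act 0 1 * φ.act 1 0 := by
    show φ.hom _ * φ.hom _ = φ.hom _ * φ.hom _
    rw [← φ.hom.map_mul, ← φ.hom.map_mul, mul_comm]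
  have hpow : ∀ {A : ℝ → ℝ} {f : Equiv.Perm S1}, (∀ x : ℝ, f (x : S1) = (A x : S1)) →
      ∀ (n : ℕ) (x : ℝ), (f ^ n) (x : S1) = (A^[n] x : S1) := by
    intro A f hA n
    induction n with
    | zero => intro x; rfl
    | succ n ih =>
      intro x
      rw [pow_succ, Equiv.Perm.mul_apply, hA, ih, Function.iterate_succ_apply]
  have hw : ∀ (a b : ℕ) (x : ℝ), φ.act a b (x : S1) = (F^[a] (G^[b] x) : S1) := fun a b x => by
    rw [hact, Equiv.Perm.mul_apply, hpow hG.lift, hpow hF.lift]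
  -- the pair of lifts is not stable in the sense of lifts
  have key : ∀ n : ℕ, ∃ F' G' : ℝ → ℝ,
      ContDiff ℝ ((⊤ : ℕ∞) : WithTop ℕ∞) F' ∧ (∀ x : ℝ, F' (x + 1) = F' x + 1) ∧
      (∀ x : ℝ, 0 < deriv F' x) ∧
      ContDiff ℝ ((⊤ : ℕ∞) : WithTop ℕ∞) G' ∧ (∀ x : ℝ, G' (x + 1) = G' x + 1) ∧
      (∀ x : ℝ, 0 < deriv G' x) ∧
      (∃ k : ℤ, ∀ x : ℝ, F' (G' x) = G' (F' x) + (k : ℝ)) ∧
      (∀ i : ℕ, i ≤ n → ∀ x : ℝ,
        |iteratedDeriv i F' x - iteratedDeriv i F x| < 1 / ((n : ℝ) + 1) ∧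
        |iteratedDeriv i G' x - iteratedDeriv i G x| < 1 / ((n : ℝ) + 1)) ∧
      ¬ ∃ H : ℝ → ℝ, ContDiff ℝ ((⊤ : ℕ∞) : WithTop ℕ∞) H ∧
        ((∀ x : ℝ, H (x + 1) = H x + 1) ∨ (∀ x : ℝ, H (x + 1) = H x - 1)) ∧
        (∀ x : ℝ, deriv H x ≠ 0) ∧
        (∃ j : ℤ, ∀ x : ℝ, H (F' x) = F (H x) + (j : ℝ)) ∧
        (∃ j : ℤ, ∀ x : ℝ, H (G' x) = G (H x) + (j : ℝ)) := by
    intro n
    by_contra hcon
    push Not at hcon
    obtain ⟨F₀, G₀, -, -, hA, hst⟩ := Pool.Agent.F88.setup hF.smooth hF1 hF' hG.smooth hG1 hG'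
      (int_const (hF.smooth.continuous.comp hG.smooth.continuous)
        (hG.smooth.continuous.comp hF.smooth.continuous) (fun x => by
          show ((F (G x) : ℝ) : S1) = ((G (F x) : ℝ) : S1)
          rw [← hF.lift, ← hG.lift, ← hG.lift, ← hF.lift]
          exact congrArg (fun p : Equiv.Perm S1 => p (x : S1)) hcomm))
      (fun a b c d hj => by
        obtain ⟨j, hj⟩ := hj
        have h1 : φ.act a b = φ.act c d := by
          ext z
          induction z using QuotientAddGroup.induction_on with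
          | H x =>
            show φ.act a b (x : S1) = φ.act c d (x : S1)
            rw [hw, hw]
            exact coe_eq.2 ⟨j, hj x⟩
        have h2 := hφ h1
        have h3 : ((a : ℤ), (b : ℤ)) = ((c : ℤ), (d : ℤ)) := h2
        rw [Prod.mk.injEq] at h3
        exact ⟨by exact_mod_cast h3.1, by exact_mod_cast h3.2⟩)
      ⟨n, 1 / ((n : ℝ) + 1), by positivity, fun F' G' a1 a2 a3 b1 b2 b3 c1 c2 => by
        obtain ⟨H, h1, h2, h3, h4, h5⟩ : ∃ H : ℝ → ℝ, ContDiff ℝ ((⊤ : ℕ∞) : WithTop ℕ∞) H ∧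
            ((∀ x : ℝ, H (x + 1) = H x + 1) ∨ (∀ x : ℝ, H (x + 1) = H x - 1)) ∧
            (∀ x : ℝ, deriv H x ≠ 0) ∧
            (∃ j : ℤ, ∀ x : ℝ, H (F' x) = F (H x) + (j : ℝ)) ∧
            (∃ j : ℤ, ∀ x : ℝ, H (G' x) = G (H x) + (j : ℝ)) := by
          obtain ⟨H, h⟩ := hcon F' G' a1 a2 a3 b1 b2 b3 c1 c2
          exact ⟨H, h⟩
        exact ⟨H, h1, h2, h3, h4, h5⟩⟩
    exact Pool.Agent.F88.not_stable hA hst
  choose F' G' a1 a2 a3 b1 b2 b3 c1 c2 c3 using key
  choose F₀ hF₀ using fun n => S.exists_dif_of_deg (a1 n) (a2 n) (a3 n)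
  choose G₀ hG₀ using fun n => S.exists_dif_of_deg (b1 n) (b2 n) (b3 n)
  choose f hf using fun n => exists_ind (F₀ n) (fun x => by rw [hF₀, hF₀, a2])
  choose g hg using fun n => exists_ind (G₀ n) (fun x => by rw [hG₀, hG₀, b2])
  have hf' : ∀ n (x : ℝ), f n (x : S1) = (F' n x : S1) := fun n x => by rw [hf, hF₀]
  have hg' : ∀ n (x : ℝ), g n (x : S1) = (G' n x : S1) := fun n x => by rw [hg, hG₀]
  have hfg : ∀ n, Commute (f n) (g n) := fun n => by
    show f n * g n = g n * f n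
    ext z
    induction z using QuotientAddGroup.induction_on with
    | H x =>
      show f n (g n (x : S1)) = g n (f n (x : S1))
      rw [hg', hf', hf', hg']
      obtain ⟨k, hk⟩ := c1 n
      exact coe_eq.2 ⟨k, hk x⟩
  have hconv : ∀ {A : ℝ → ℝ} {B : ℕ → ℝ → ℝ}, (∀ n i : ℕ, i ≤ n → ∀ x : ℝ,
      |iteratedDeriv i (B n) x - iteratedDeriv i A x| < 1 / ((n : ℝ) + 1)) →
      ∀ k : ℕ, TendstoUniformly (fun n => iteratedDeriv k (B n)) (iteratedDeriv k A) atTop := by
    intro A B hAB k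
    rw [Metric.tendstoUniformly_iff]
    intro ε hε
    obtain ⟨N, hN⟩ := exists_nat_one_div_lt hε
    filter_upwards [eventually_ge_atTop (max N k)] with n hn x
    have h1 := hAB n k ((le_max_right _ _).trans hn) x
    rw [dist_comm, Real.dist_eq]
    refine h1.trans (lt_of_le_of_lt ?_ hN)
    have : (N : ℝ) ≤ n := by exact_mod_cast (le_max_left _ _).trans hn
    gcongr
  refine ⟨fun n => ofPair (hf n) (hg n) (hfg n), ⟨F', F, fun n => ?_, hF,
    hconv fun n i hi x => (c2 n i hi x).1⟩, ⟨G', G, fun n => ?_, hG,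
    hconv fun n i hi x => (c2 n i hi x).2⟩, fun n => ?_⟩
  · have : (ofPair (hf n) (hg n) (hfg n)).act 1 0 = f n := by
      show f n ^ (1 : ℤ) * g n ^ (0 : ℤ) = f n
      simp
    show IsLift (F' n) ((ofPair (hf n) (hg n) (hfg n)).act 1 0)
    rw [this]
    exact ⟨a1 n, fun x => (a3 n x).ne', hf' n⟩
  · have : (ofPair (hf n) (hg n) (hfg n)).act 0 1 = g n := by
      show f n ^ (0 : ℤ) * g n ^ (1 : ℤ) = g n
      simp
    show IsLift (G' n) ((ofPair (hf n) (hg n) (hfg n)).act 0 1)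
    rw [this]
    exact ⟨b1 n, fun x => (b3 n x).ne', hg' n⟩
  · rintro ⟨h, ⟨H, hH⟩, hh⟩
    apply c3 n
    have e1 : (ofPair (hf n) (hg n) (hfg n)).act 1 0 = f n := by
      show f n ^ (1 : ℤ) * g n ^ (0 : ℤ) = f n
      simp
    have e2 : (ofPair (hf n) (hg n) (hfg n)).act 0 1 = g n := by
      show f n ^ (0 : ℤ) * g n ^ (1 : ℤ) = g n
      simp
    have h1 := hh 1 0
    have h2 := hh 0 1
    rw [e1, mul_inv_eq_iff_eq_mul] at h1
    rw [e2, mul_inv_eq_iff_eq_mul] at h2
    have hHc := hH.smooth.continuous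
    refine ⟨H, hH.smooth, degree hH, hH.deriv_ne,
      int_const (A := fun x => H (F' n x)) (B := fun x => F (H x))
        (hHc.comp (a1 n).continuous) (hF.smooth.continuous.comp hHc) (fun x => ?_),
      int_const (A := fun x => H (G' n x)) (B := fun x => G (H x))
        (hHc.comp (b1 n).continuous) (hG.smooth.continuous.comp hHc) (fun x => ?_)⟩
    · rw [← hH.lift, ← hf', ← hF.lift, ← hH.lift]
      exact congrArg (fun p : Equiv.Perm S1 => p (x : S1)) h1
    · rw [← hH.lift, ← hg', ← hG.lift, ← hH.lift]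
      exact congrArg (fun p : Equiv.Perm S1 => p (x : S1)) h2

end Pool.Agent.Results.MP_f88c17_an.NoStableAction
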